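import Mathlib
import Pool.Agent.H204R3.GP.Defs
import Pool.Agent.H204R3.GP.Neat
import Pool.Agent.H194R3.Tate.CharZero
import Pool.Agent.Helper33_dom.Field

/-!
# The Tate conjecture for abelian varieties in characteristic zero: one Frobenius element with
# dominating slopes

Let `A` be an abelian variety over a finitely generated field of characteristic zero, of any
dimension and with arbitrary endomorphisms. Suppose that `A` has good reduction at ONE closed
point `v` (with residue field of `p ^ a` elements) of a model, such that the characteristic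
polynomial of the Frobenius element is the product of the minimal polynomials of numbers `π i`
which generate CM fields `F i`, `π i * conj (π i) = p ^ a`, and each `π i` is of dominant type, of
pair type or of flip type.

Dominant type (the new case): let `w τ = 2 v (τ π) - a` be the normalised valuations, `τ` running
through the embeddings of `F i` in the algebraic closure of the `p`-adic numbers. There is `τ₀`
with `w τ₀ ≠ 0` such that the sum of all `|w τ|` is less than `4 |w τ₀|`; or it is equal to
`4 |w τ₀|` and `π i` is not of norm type: there is no subfield `E` of `F i`, different from `F i`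
and not totally real, such that for every embedding of `E` the sum of the `w τ` over its extensions
`τ` to `F i` is zero (the square of the norm of `π i` to `E` is a power of `p` times a root of
unity). Examples, for a reduction of dimension `g` with commutative endomorphism algebra
`F i = ℚ(π i)`: the slopes `0` and `1` once and `1/2` otherwise (K3 type); `p`-rank two and all
other slopes `1/2`; the slopes `0` and `1` once, `r / (2 r + 1)` and `(r + 1) / (2 r + 1)` with
multiplicity `2 r + 1`, and all other slopes `1/2` (in the last two cases there is equality). There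
is no condition on the Galois group of `F i`.

For different `i`, `j` and embeddings `φ` of `F i` and `ψ` of `F j` some automorphism of the complex
numbers fixes one and conjugates the other.

Then for all primes `ℓ` not divisible by `v` all Tate classes in the `ℓ`-adic cohomology of all the
powers of `A` are linear combinations of wedge products of Tate classes of degree two; by the
theorem of Faltings these are classes of divisors. So the Tate conjecture holds for all powers
of `A`.

In the Lean statement `V` is the rational Tate module with the action `ρ` of the Galois group, `ω`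
is the Weil pairing of a polarization, `χ` is the cyclotomic character and `γ` the (arithmetic)
Frobenius element at `v`.
-/

namespace Pool.Agent.Results.MP_640417_ag.DominantFrobenius

open NumberField Module Pool.Agent.H204R3.GP Pool.Agent.H204R3.SP IntermediateField
  Pool.Agent.H194R3.CM Pool.Agent.H194R3.Tate Pool.Agent.Helper33Dom

theorem result (ℓ p : ℕ) [Fact ℓ.Prime] [Fact p.Prime] (a : ℕ) (ha : 0 < a)
    {ι : Type} [Fintype ι] (F : ι → Type) [∀ i, Field (F i)] [∀ i, NumberField (F i)]
    [∀ i, IsCMField (F i)]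
    (π : ∀ i, F i) (hgen : ∀ i, ℚ⟮π i⟯ = ⊤)
    (hweil : ∀ i, π i * IsCMField.complexConj (F i) (π i) = (p : F i) ^ a)
    (hπ : ∀ i, DominantType p a (π i) ∨ PairType p a (π i) ∨ FlipType p a (π i))
    (hcross : ∀ i j, i ≠ j → ∀ (φ : F i →+* ℂ) (ψ : F j →+* ℂ), CrossFlipped φ ψ)
    {V : Type} [AddCommGroup V] [Module ℚ_[ℓ] V] [FiniteDimensional ℚ_[ℓ] V]
    {Γ : Type} [Group Γ] (ρ : Representation ℚ_[ℓ] Γ V) (χ : Γ →* ℚ_[ℓ])
    (ω : V →ₗ[ℚ_[ℓ]] V →ₗ[ℚ_[ℓ]] ℚ_[ℓ]) (halt : ∀ v, ω v v = 0)
    (hnondeg : ∀ u, (∀ v, ω v u = 0) → u = 0)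
    (hω : ∀ s u v, ω (ρ s u) (ρ s v) = χ s * ω u v)
    (hss : FiniteIndexSemisimple ρ)
    (γ : Γ) (hχ : χ γ = (p : ℚ_[ℓ]) ^ a)
    (hγ : (ρ γ).charpoly = ∏ i, (minpoly ℚ (π i)).map (algebraMap ℚ ℚ_[ℓ])) :
    TateGeneratedInDegreeTwo ρ χ := by
  intro n m f hf
  obtain ⟨Δ, hΔ, hf⟩ := hf
  have hss' : ∀ Δ : Subgroup Γ, Δ.FiniteIndex → SemiUnder (ρ '' (Δ : Set Γ)) := by
    intro Δ hΔ U hU
    obtain ⟨U', h1, h2⟩ := hss Δ hΔ U (fun s hs u hu => hU _ ⟨s, hs, rfl⟩ u hu)
    refine ⟨U', ?_, h2⟩
    rintro _ ⟨s, hs, rfl⟩ u hu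
    exact h1 s hs u hu
  obtain ⟨L, hL1, hL2, j, h⟩ := Pool.Agent.H204R3.CM.exists_galois F
  let e : L →ₐ[ℚ] PadicAlgCl p := IsAlgClosed.lift
  have hweil' : ∀ i, ∀ φ : F i →+* ℂ, ‖φ (π i)‖ ^ 2 = (((p : ℚ) ^ a : ℚ) : ℝ) :=
    fun i φ => norm_of_weil p a (π i) (hweil i) φ
  have hnd := norel_of_family p (fun _ => a) π hweil' hπ hcross
  have hneat := neat_of_norel p a π hweil' e (hnd L hL1 hL2 j h e)
  have h1 := altG_of_tate_mem ρ χ (n := n) (m := m) (fun φ hφ => tate_of_neat ha hgen hweil
    j h hneat ρ χ ω halt hnondeg hω hss' γ hχ hγ φ hφ) f Δ hΔ hf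
  refine Submodule.span_mono ?_ h1
  rintro g ⟨B, hB, hg⟩
  refine ⟨B, fun l => ?_, hg⟩
  obtain ⟨Δ', hΔ', h2⟩ := hB l
  refine ⟨Δ', hΔ', fun s hs v => ?_⟩
  rw [pow_one]
  exact h2 s hs v

end Pool.Agent.Results.MP_640417_ag.DominantFrobenius
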