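import Pool.Agent.H694.TT.EMain

/-!
# The effective index law for Tate classes

Let `X` be a smooth projective variety over the separable closure of a finitely generated field, of
dimension `d` and with sum of the `ℓ`-adic Betti numbers `b`, such that the projector onto the even
cohomology is algebraic (this is known for all abelian varieties, surfaces and complete
intersections, and for products of such varieties). Let `t n` be the dimension of the space of the
`ℓ`-adic Tate classes in the middle degree of `X ^ (2 n + 2)`, that is, of codimension `(n + 1) d`,
and `r n` the rank of the group of the algebraic cycles of this codimension modulo numerical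
equivalence. Then:

1. `0 < r n ≤ t n ≤ (n + 2) ^ (b ^ 2) r n`: both numbers grow exponentially, but unconditionally there
   are at most polynomially many times more Tate classes than algebraic classes.
2. For every `κ` the Tate conjecture holds for `X ^ (κ + 1)` in all codimensions (and homological and
   numerical equivalence agree on it), or
   `t n ≥ (2 - 2 (κ + 1) b ^ (2 κ + 4) log (n + 2) / n) r n` for all `n ≥ 1`.

So a single Tate class on a power of `X` which is not algebraic forces an explicit surplus of Tate
classes on all large powers; and conversely, if on one single large power `r n` is slightly more than one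
half of `t n` (effectively, the size depends on `b` and `κ` only, not on the
field, the prime `ℓ` or the Galois representation), then the Tate conjecture holds for
`X ^ (κ + 1)` in all codimensions. Neither the semisimplicity of the Galois action nor a standard
conjecture beyond the algebraicity of the even projector is used.
-/

open CategoryTheory AlgebraicGeometry

universe u v w

namespace Pool.Agent.Results.MP_640417_ag.EffectiveIndexLaw

open Pool.Agent.H914 Pool.Agent.H447 Pool.Agent.W534 Pool.Agent.Y163 Pool.Agent.R940
  Pool.Agent.H694.EL VarClass Obj

variable {k : Type u} [Field k] {𝒱 : VarClass k} {ops : CycleOps 𝒱}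

/-- **The effective index law for Tate classes.** -/
theorem result (W : WeilCohomology.{u, v} ops) (G : GaloisAction.{u, v, w} W) (X : 𝒱.Obj)
    (hX : SignStd W X) (E : X.Cycles) (hE : X.IsCyc 1 E) (hbig : Big ops X E) (t r : ℕ → ℕ)
    (ht : ∀ n, t n = tateRank G (sq X n) ((n + 1) * X.dim))
    (hr : ∀ n, r n = numRank ops (sq X n) ((n + 1) * X.dim)) :
    (∀ n, 0 < r n ∧ r n ≤ t n ∧ t n ≤ (n + 2) ^ (Pool.Agent.R940.betti W X ^ 2) * r n) ∧
    ∀ κ, (TateConj G (pw X κ) ∧ HomEqNum W (pw X κ)) ∨
      NearlyTwice (indexConst (Pool.Agent.R940.betti W X) κ) t r := by
  obtain rfl : t = fun n => tateRank G (sq X n) ((n + 1) * X.dim) := funext ht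
  obtain rfl : r = fun n => numRank ops (sq X n) ((n + 1) * X.dim) := funext hr
  have h := Pool.Agent.R920.PL.pred_law (Pool.Agent.H694.TT.tatePred (toSys G)) hX hE hbig
  simp only [← tateRank_eq] at h
  refine ⟨h.1, fun κ => (h.2 κ).imp ?_ id⟩
  rintro ⟨h1, h2⟩
  refine ⟨fun j c hc => ?_, h2⟩
  rw [← Pool.Agent.H694.EL.spanCycles_eq]
  exact h1 j c ((isTate_iff G).1 hc)

end Pool.Agent.Results.MP_640417_ag.EffectiveIndexLaw
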