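import Pool.Agent.H694.TT.Main

/-!
# The index of the algebraic classes in the Tate classes on the powers of a variety

Let `X` be a smooth projective variety over an algebraic closure `k` of a field finitely generated
over `ℚ`, embedded into the complex numbers, let `X ^ n` be its powers, and let `r n` be the rank
of the group of the algebraic cycles of all codimensions on `X ^ n` modulo numerical equivalence.
Let `m n` be the number of linearly independent motivated classes (André) of all codimensions on
`X ^ n`, and for a prime `ℓ` let `t n` be the number of linearly independent `ℓ`-adic Tate classes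
of all codimensions on `X ^ n`.

There is an element `M` of `{1, 2, …, ∞}` and for every `ℓ` an element `N` of `{1, 2, …, ∞}` such
that, if `n` tends to infinity, `m n / r n` converges to `M`, `t n / m n` converges to `N`, and
`t n / r n` converges to `N M`; here `M` does not depend on `ℓ`. Moreover:

* `N M = 1` if and only if the Tate conjecture holds for all powers of `X` and the prime `ℓ`, and
  otherwise asymptotically at most one half of the Tate classes on the powers of `X` is algebraic;
* `N = 1` if and only if all Tate classes on all powers of `X` are `ℚ_ℓ`-linear combinations of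
  motivated classes, and otherwise asymptotically at most one half of them is;
* `M = 1` if and only if all motivated classes on all powers of `X` are algebraic;
* the same `M` governs all other systems of classes, such as the Hodge classes: for every system `P`
  of classes with rational coefficients, the quotient of the number of classes in `P` on `X ^ n` and
  of `r n` converges to a product `N' M`, and `N' M = 1` if and only if all classes in `P` on all
  powers of `X` are algebraic.

So a motivated class on a power of `X` which is not algebraic makes at least one half of the Tate
classes non-algebraic for all primes `ℓ` at once, and at least one half of the Hodge classes; and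
conversely, if for a single prime `ℓ` slightly more than one half of the Tate classes is algebraic for
infinitely many `n`, then the Tate conjecture for this `ℓ` holds for all powers of `X` and all
motivated classes are algebraic.
-/

open CategoryTheory AlgebraicGeometry

universe u v w

namespace Pool.Agent.Results.MP_640417_ag.SharedIndex

open Pool.Agent.H914 Pool.Agent.H914.VarClass Pool.Agent.H914.VarClass.Obj
  Pool.Agent.H914.WeilCohomology Pool.Agent.R920.MT Pool.Agent.R920.DB Pool.Agent.H694.LA

open Pool.Agent.Y133.Half (pw HasIndex dimBy cycRank algDim AtMostHalf)

variable {k : Type u} [Field k] {𝒱 : VarClass k} {ops : CycleOps 𝒱}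

/-- **The index of the algebraic classes in the Tate classes.** -/
theorem result (W : WeilCohomology.{u, v} ops) [Algebra W.K ℝ] (hW : IsPolarised W) (X : 𝒱.Obj)
    [Nontrivial (W.H X)] (m a r : ℕ → ℕ) (hm : ∀ n, m n = dimBy W (IsMotivated W) (pw X n))
    (ha : ∀ n, a n = algDim W (pw X n)) (hr : ∀ n, r n = cycRank ops (pw X n)) :
    ∃ M : ℕ∞, 1 ≤ M ∧ HasIndex m r M ∧ (M = 1 ↔ AlgOnPowers (IsMotivated W) X) ∧
      (∀ (P : Property W) (p : ℕ → ℕ), IsGradedSystem P → (∀ n, p n = dimBy W P (pw X n)) →
        ∃ N : ℕ∞, 1 ≤ N ∧ HasIndex p m N ∧ HasIndex p r (N * M) ∧ (N = 1 ↔ MotOnPowers P X) ∧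
          (N * M = 1 ↔ AlgOnPowers P X)) ∧
      ∀ (L : Type v) [Field L] [Algebra W.K L] (G : GaloisAction.{u, v, w} W L) (t : ℕ → ℕ),
        (∀ n, t n = tateDim G (pw X n)) →
        ∃ N : ℕ∞, 1 ≤ N ∧ HasIndex t m N ∧ HasIndex t r (N * M) ∧
          (N = 1 ↔ TateAreMotivated G X) ∧ (N * M = 1 ↔ TateOnPowers G X) ∧
          (N ≠ 1 → AtMostHalf m t) ∧ (N * M ≠ 1 → AtMostHalf a t) :=
  main W hW X hm ha hr

end Pool.Agent.Results.MP_640417_ag.SharedIndex
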